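import Pool.Agent.Q284.R.Low

/-! The rotated law for a general series with real coefficients: order, leading coefficient and the
number of zeros and poles on the segment. -/

set_option autoImplicit false

namespace Pool.Agent.Q284.R

open Complex MeasureTheory Filter Topology Set
open Pool.Agent.W189.ML Pool.Agent.W189.LC Pool.Agent.W187.UR

variable {ι : Type} {lam c : ι → ℝ} {Φ : ℂ → ℂ}

/-- the number of zeros minus the number of poles on `(0, 1]` -/
noncomputable def Zn (Φ : ℂ → ℂ) : ℤ := ∑ᶠ x ∈ Ioc (0 : ℝ) 1, (meromorphicOrderAt Φ (x : ℂ)).untop₀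

theorem order_int (D : MData lam c Φ) : ∃ m : ℤ, meromorphicOrderAt Φ 0 = m := by
  have h := D.order_ne_top (x := 0) ⟨le_rfl, by norm_num⟩
  rw [Complex.ofReal_zero] at h
  obtain ⟨m, hm⟩ := WithTop.ne_top_iff_exists.1 h
  exact ⟨m, hm.symm⟩

/-- **above the right angle**: the law holds whatever the zeros and poles are -/
theorem high_law [Countable ι] (D : MData lam c Φ) {m : ℤ} (hm : meromorphicOrderAt Φ 0 = m) :
    ∃ A : ℝ, meromorphicTrailingCoeffAt Φ 0 = A ∧ A ≠ 0 ∧ A = (-1) ^ Zn Φ * |A| ∧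
      ∀ γ : ℝ, Real.pi / 2 < γ → ∃ C T₀ : ℝ, 0 ≤ C ∧ 1 ≤ T₀ ∧ ∀ T ≥ T₀,
        ‖cmean lam c γ T - (Real.log |A| - Real.pi * Zn Φ * I - m * (Real.log T - Lam γ))‖ ≤ C / T := by
  have key : ∀ γ : ℝ, Real.pi / 2 < γ → ∃ (r₀ : ℂ) (C T₀ : ℝ),
      exp r₀ = meromorphicTrailingCoeffAt Φ 0 ∧ r₀.im = -Real.pi * ((Zn Φ : ℤ) : ℝ) ∧
      0 ≤ C ∧ 1 ≤ T₀ ∧ ∀ T ≥ T₀,
      ‖-cmean lam c γ T - (m * (Real.log T - Lam γ) - r₀)‖ ≤ C / T := fun γ hγ =>
    mdata_rot D hm hγ
  have sgn : ∀ r₀ : ℂ, exp r₀ = meromorphicTrailingCoeffAt Φ 0 → r₀.im = -Real.pi * ((Zn Φ : ℤ) : ℝ) →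
      meromorphicTrailingCoeffAt Φ 0 = (((-1 : ℝ) ^ (Zn Φ) * Real.exp r₀.re : ℝ) : ℂ) := by
    intro r₀ hr hi
    have h1 : r₀ = (r₀.re : ℂ) + (Zn Φ : ℂ) * (-(Real.pi * Complex.I)) := by
      apply Complex.ext
      · simp
      · rw [hi]; simp; ring
    rw [← hr]
    nth_rewrite 1 [h1]
    rw [Complex.exp_add, Complex.exp_int_mul, Complex.exp_neg, Complex.exp_pi_mul_I]
    push_cast
    norm_num
    ring
  obtain ⟨r₁, -, -, hr₁, hi₁, -⟩ := key Real.pi (by linarith [Real.pi_pos])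
  have hA := sgn r₁ hr₁ hi₁
  set A : ℝ := (-1 : ℝ) ^ (Zn Φ) * Real.exp r₁.re with hAdef
  have habs1 : |(-1 : ℝ) ^ (Zn Φ)| = 1 := by rw [abs_zpow]; simp
  have habs : |A| = Real.exp r₁.re := by rw [hAdef, abs_mul, Real.abs_exp, habs1, one_mul]
  have hA0 : A ≠ 0 := by
    intro h
    rw [h, abs_zero] at habs
    exact (Real.exp_pos _).ne habs
  refine ⟨A, hA, hA0, by rw [habs], fun γ hγ => ?_⟩
  obtain ⟨r₀, C, T₀, hr, hi, hC, hT₀, h⟩ := key γ hγ
  have hre : r₀.re = Real.log |A| := by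
    have h1 := sgn r₀ hr hi
    rw [hA] at h1
    have h2 : A = (-1 : ℝ) ^ (Zn Φ) * Real.exp r₀.re := by exact_mod_cast h1
    rw [h2, abs_mul, habs1, one_mul, Real.abs_exp, Real.log_exp]
  have hr₀ : r₀ = (Real.log |A| : ℂ) - Real.pi * Zn Φ * I := by
    apply Complex.ext
    · simp [hre]
    · rw [hi]; simp
  refine ⟨C, T₀, hC, hT₀, fun T hT => ?_⟩
  refine le_trans (le_of_eq ?_) (h T hT)
  rw [← norm_neg, hr₀]
  congr 1
  ring

/-- the product form -/
theorem high_tendsto [Countable ι] (D : MData lam c Φ) {m : ℤ} (hm : meromorphicOrderAt Φ 0 = m)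
    {γ : ℝ} (hγ : Real.pi / 2 < γ) :
    Tendsto (fun T : ℝ => exp (cmean lam c γ T) * (T : ℂ) ^ m) atTop
      (𝓝 (meromorphicTrailingCoeffAt Φ 0 * exp (m * Lam γ))) := by
  obtain ⟨A, hA, hA0, hsg, h⟩ := high_law D hm
  obtain ⟨C, T₀, hC, hT₀, h1⟩ := h γ hγ
  have h2 : Tendsto (fun T : ℝ => cmean lam c γ T -
      (Real.log |A| - Real.pi * Zn Φ * I - m * (Real.log T - Lam γ))) atTop (𝓝 0) := by
    rw [tendsto_zero_iff_norm_tendsto_zero]
    refine squeeze_zero' (g := fun T => C / T) (Eventually.of_forall fun X => norm_nonneg _) ?_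
      (tendsto_const_nhds.div_atTop tendsto_id)
    filter_upwards [eventually_ge_atTop T₀] with T hT
    exact h1 T hT
  have h3 : Tendsto (fun T : ℝ => exp (cmean lam c γ T -
      (Real.log |A| - Real.pi * Zn Φ * I - m * (Real.log T - Lam γ))) *
        (meromorphicTrailingCoeffAt Φ 0 * exp (m * Lam γ))) atTop
      (𝓝 (1 * (meromorphicTrailingCoeffAt Φ 0 * exp (m * Lam γ)))) := by
    refine Tendsto.mul_const _ ?_
    have := (Complex.continuous_exp.tendsto 0).comp h2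
    simpa [Function.comp_def] using this
  rw [one_mul] at h3
  refine h3.congr' ?_
  filter_upwards [eventually_gt_atTop 0] with T hT
  have hTc : (T : ℂ) ≠ 0 := by exact_mod_cast hT.ne'
  have h4 : (T : ℂ) ^ m = exp (m * Real.log T) := by
    rw [Complex.exp_int_mul, ← Complex.ofReal_exp, Real.exp_log hT]
  have h5 : ((A : ℝ) : ℂ) = exp ((Real.log |A| : ℂ) - Real.pi * Zn Φ * I) := by
    have h6 : exp ((Real.log |A| : ℂ) - Real.pi * Zn Φ * I) =
        exp (Real.log |A| : ℂ) * exp ((Zn Φ : ℂ) * (-(Real.pi * I))) := by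
      rw [← Complex.exp_add]
      congr 1
      ring
    rw [h6, Complex.exp_int_mul, Complex.exp_neg, Complex.exp_pi_mul_I, ← Complex.ofReal_exp,
      Real.exp_log (abs_pos.2 hA0)]
    nth_rewrite 1 [hsg]
    push_cast
    norm_num
    ring
  rw [hA, h5, h4, ← Complex.exp_add, ← Complex.exp_add, ← Complex.exp_add]
  congr 1
  ring

/-- **the equivalence** -/
theorem high_iff [Countable ι] (D : MData lam c Φ) {γ : ℝ} (hγ : Real.pi / 2 < γ) (r : ℤ) {B : ℂ}
    (hB : B ≠ 0) :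
    (meromorphicOrderAt Φ 0 = (r : WithTop ℤ) ∧ meromorphicTrailingCoeffAt Φ 0 = B) ↔
    Tendsto (fun T : ℝ => exp (cmean lam c γ T) * (T : ℂ) ^ r) atTop (𝓝 (B * exp (r * Lam γ))) := by
  constructor
  · rintro ⟨h1, h2⟩
    rw [← h2]
    exact high_tendsto D h1 hγ
  · intro h1
    obtain ⟨m, hm⟩ := order_int D
    obtain ⟨A, hA, hA0, -, -⟩ := high_law D hm
    have h := high_tendsto D hm hγ
    have hlc : (A : ℂ) ≠ 0 := by exact_mod_cast hA0
    rw [hA] at h
    set c₁ : ℂ := A * exp (m * Lam γ) with hc₁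
    set c₀ : ℂ := B * exp (r * Lam γ) with hc₀
    have hc₁0 : c₁ ≠ 0 := mul_ne_zero hlc (Complex.exp_ne_zero _)
    have hc₀0 : c₀ ≠ 0 := mul_ne_zero hB (Complex.exp_ne_zero _)
    have h2 : Tendsto (fun T : ℝ => (T : ℂ) ^ (r - m)) atTop (𝓝 (c₀ / c₁)) := by
      refine (h1.div h hc₁0).congr' ?_
      filter_upwards [eventually_gt_atTop 0] with T hT
      have hTc : (T : ℂ) ≠ 0 := by exact_mod_cast hT.ne'
      have h3 := Complex.exp_ne_zero (cmean lam c γ T)
      rw [zpow_sub₀ hTc]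
      have h4 : (T : ℂ) ^ m ≠ 0 := zpow_ne_zero _ hTc
      simp only [Pi.div_apply]
      field_simp
    have h3 : Tendsto (fun T : ℝ => T ^ (r - m)) atTop (𝓝 ‖c₀ / c₁‖) := by
      refine h2.norm.congr' ?_
      filter_upwards [eventually_gt_atTop 0] with T hT
      rw [norm_zpow, Complex.norm_real, Real.norm_eq_abs, abs_of_pos hT]
    have h4 : r - m = 0 := by
      rcases lt_trichotomy (r - m) 0 with h5 | h5 | h5
      · exfalso
        have h6 : Tendsto (fun T : ℝ => T ^ (r - m)) atTop (𝓝 0) := tendsto_zpow_atTop_zero h5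
        have h7 := tendsto_nhds_unique h3 h6
        rw [norm_eq_zero] at h7
        exact div_ne_zero hc₀0 hc₁0 h7
      · exact h5
      · exfalso
        have h6 : Tendsto (fun T : ℝ => T ^ (r - m)) atTop atTop := by
          obtain ⟨n, hn⟩ := Int.eq_ofNat_of_zero_le h5.le
          rw [hn]
          simp only [zpow_natCast]
          refine tendsto_pow_atTop ?_
          intro h0
          rw [h0] at hn
          rw [hn] at h5
          exact absurd h5 (by simp)
        exact not_tendsto_nhds_of_tendsto_atTop h6 _ h3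
    have h5 : r = m := by linarith
    subst h5
    have h6 : c₀ = c₁ := tendsto_nhds_unique h1 h
    refine ⟨hm, ?_⟩
    rw [hA]
    rw [hc₀, hc₁] at h6
    exact (mul_right_cancel₀ (Complex.exp_ne_zero (r * Lam γ)) h6).symm

end Pool.Agent.Q284.R
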