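import Pool.Agent.Q286.RL.Eul
import Pool.Agent.W187.UR.NF
import Pool.Agent.Q284.M.Frob

/-! The rotated means for the L-function of `H^i(X)` at a real point. -/

set_option autoImplicit false

namespace Pool.Agent.Q284.R

open Complex MeasureTheory Filter Topology Set NumberField IsDedekindDomain
open Pool.Agent.W189.ML Pool.Agent.W189.LC Pool.Agent.W187.UR Pool.Agent.Q286.RL
open Pool.Agent.TH958.BV (IsFrobenius)
open Pool.Agent.H921R2.TatePole (nm two_le_nm nm_summable)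

section general

variable {P J : Type} [Fintype J] {q : P → ℝ} {th : P → J → ℂ}

/-- the real coefficients -/
noncomputable def rc (th : P → J → ℂ) (x : P × ℕ) : ℝ := (ec th x).re

theorem ec_real (hre : ∀ v k, (∑ j, th v j ^ (k + 1)).im = 0) (x : P × ℕ) :
    ec th x = ((rc th x : ℝ) : ℂ) := by
  have h : (ec th x).im = 0 := by
    unfold ec
    rw [show (((x.2 + 1 : ℕ) : ℂ)) = (((x.2 + 1 : ℕ) : ℝ) : ℂ) by push_cast; rfl,
      Complex.div_ofReal_im, hre, zero_div]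
  apply Complex.ext
  · simp [rc]
  · simp [h]

theorem cser_real (hre : ∀ v k, (∑ j, th v j ^ (k + 1)).im = 0) (w : ℂ) :
    cser (fr q) (ec th) w = ser (fr q) (rc th) w := by
  unfold cser ser
  refine tsum_congr fun x => ?_
  rw [ec_real hre x]

/-- the data for the abstract theorem -/
theorem mdata_of (E : ED q th) (hre : ∀ v k, (∑ j, th v j ^ (k + 1)).im = 0) {Φ : ℂ → ℂ}
    (hmer : ∀ x ∈ Icc (0 : ℝ) 2, MeromorphicAt Φ (x : ℂ))
    (hF : ∀ w : ℂ, 1 < w.re → Φ w = ∏' v, ∏ j, (1 - th v j * (q v : ℂ) ^ (-w))⁻¹) :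
    MData (fr q) (rc th) Φ where
  lam_pos := E.cd.lam_nonneg
  sum := fun σ hσ => by
    have h := E.cd.sum σ hσ
    refine h.congr fun x => ?_
    rw [ec_real hre x, Complex.norm_real, Real.norm_eq_abs]
  mero := hmer
  eq := fun w hw => by
    rw [hF w hw, (E.hasProd hw).tprod_eq, cser_real hre]

theorem cmn_eq (hre : ∀ v k, (∑ j, th v j ^ (k + 1)).im = 0) (γ T : ℝ) :
    cmean (fr q) (rc th) γ T = ∑' x : P × ℕ, (rc th x : ℂ) * Q286.RL.ker γ (fr q x / T) := by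
  unfold cmean Q286.RL.ker om
  refine tsum_congr fun x => ?_
  ring

end general

section frob

variable {K : Type} [Field K] [NumberField K] {n : ℕ} {X : Set (MvPolynomial (Fin n) (𝓞 K))}
  {d i N : ℕ} {S : Set (HeightOneSpectrum (𝓞 K))} {α : HeightOneSpectrum (𝓞 K) → Fin N → ℂ}

/-- the eigenvalues of Frobenius divided by `q_v^s₀` -/
noncomputable def tf (S : Set (HeightOneSpectrum (𝓞 K))) (α : HeightOneSpectrum (𝓞 K) → Fin N → ℂ)
    (s₀ : ℝ) (v : {v // v ∉ S}) (j : Fin N) : ℂ := α v.1 j * (((nm v.1 : ℝ) ^ (-s₀) : ℝ) : ℂ)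

/-- the norms -/
noncomputable def qf (S : Set (HeightOneSpectrum (𝓞 K))) (v : {v // v ∉ S}) : ℝ := nm v.1

theorem nm_pos' (v : HeightOneSpectrum (𝓞 K)) : (0 : ℝ) < nm v := by
  have := two_le_nm v
  positivity

theorem ed_frob (hα : ∀ v ∉ S, IsFrobenius X d i v (α v)) {s₀ : ℝ} (hs : (i : ℝ) / 2 ≤ s₀) :
    ED (qf S) (tf S α s₀) where
  two_le := fun v => by
    have := two_le_nm v.1
    unfold qf
    exact_mod_cast this
  sum := fun σ hσ => (nm_summable (K := K) hσ).comp_injective Subtype.val_injective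
  th_le := fun v j => by
    have h0 := nm_pos' v.1
    unfold tf
    rw [norm_mul, Complex.norm_real, Real.norm_of_nonneg (by positivity),
      Q284.M.norm_frob (hα v.1 v.2) j, ← Real.rpow_add h0]
    refine le_trans (Real.rpow_le_one_of_one_le_of_nonpos ?_ ?_) (by norm_num)
    · have := two_le_nm v.1
      have h2 : (2 : ℝ) ≤ nm v.1 := by exact_mod_cast this
      linarith
    · linarith

theorem tf_real (hα : ∀ v ∉ S, IsFrobenius X d i v (α v)) (hi : i ≤ 2 * d) (s₀ : ℝ)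
    (v : {v // v ∉ S}) (k : ℕ) : (∑ j, tf S α s₀ v j ^ (k + 1)).im = 0 := by
  refine Q284.M.real_sum (f := fun z => (z * (((nm v.1 : ℝ) ^ (-s₀) : ℝ) : ℂ)) ^ (k + 1))
    (hα v.1 v.2) hi fun j => ?_
  rw [map_pow, map_mul, Complex.conj_ofReal]

theorem tf_factor (s₀ : ℝ) (v : {v // v ∉ S}) (j : Fin N) (w : ℂ) :
    tf S α s₀ v j * (qf S v : ℂ) ^ (-w) = α v.1 j * (nm v.1 : ℂ) ^ (-((s₀ : ℂ) + w)) := by
  have hq := nm_pos' v.1
  have hqc : ((nm v.1 : ℝ) : ℂ) ≠ 0 := by exact_mod_cast hq.ne'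
  unfold tf qf
  rw [mul_assoc]
  congr 1
  rw [show ((nm v.1 : ℕ) : ℂ) = ((nm v.1 : ℝ) : ℂ) by push_cast; rfl,
    Complex.ofReal_cpow hq.le, ← Complex.cpow_add _ _ hqc]
  congr 1
  push_cast
  ring

theorem rc_frob (s₀ : ℝ) (x : {v // v ∉ S} × ℕ) : rc (tf S α s₀) x =
    (∑ j, α x.1.1 j ^ (x.2 + 1)).re /
      (((x.2 : ℝ) + 1) * (nm x.1.1 : ℝ) ^ (((x.2 : ℝ) + 1) * s₀)) := by
  have hq := nm_pos' x.1.1
  unfold rc ec tf
  simp only [mul_pow]
  rw [← Finset.sum_mul, ← Complex.ofReal_pow,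
    show (((x.2 + 1 : ℕ) : ℂ)) = (((x.2 + 1 : ℕ) : ℝ) : ℂ) by push_cast; rfl,
    Complex.div_ofReal_re, Complex.re_mul_ofReal, ← Real.rpow_natCast, ← Real.rpow_mul hq.le]
  have h1 : -s₀ * ((x.2 + 1 : ℕ) : ℝ) = -(((x.2 : ℝ) + 1) * s₀) := by
    push_cast
    ring
  rw [h1, Real.rpow_neg hq.le]
  push_cast
  field_simp

/-- the incomplete L-function -/
noncomputable def LF (S : Set (HeightOneSpectrum (𝓞 K))) (α : HeightOneSpectrum (𝓞 K) → Fin N → ℂ)
    (s : ℂ) : ℂ := ∏' v : {v // v ∉ S}, ∏ j, (1 - α v.1 j * (nm v.1 : ℂ) ^ (-s))⁻¹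

/-- the L-function is analytic and not zero to the right of `i/2 + 1` -/
theorem right_ne (hα : ∀ v ∉ S, IsFrobenius X d i v (α v)) {F : ℂ → ℂ}
    (hF : ∀ s : ℂ, (i : ℝ) / 2 + 1 < s.re → F s = LF S α s) {s : ℂ} (hs : (i : ℝ) / 2 + 1 < s.re) :
    AnalyticAt ℂ F s ∧ F s ≠ 0 := by
  have E := ed_frob (s₀ := (i : ℝ) / 2) hα le_rfl
  have heq : ∀ z : ℂ, (i : ℝ) / 2 + 1 < z.re → F z =
      exp (cser (fr (qf S)) (ec (tf S α ((i : ℝ) / 2))) (z - ((i : ℝ) / 2 : ℝ))) := by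
    intro z hz
    have h1 : 1 < (z - (((i : ℝ) / 2 : ℝ) : ℂ)).re := by
      rw [Complex.sub_re, Complex.ofReal_re]; linarith
    rw [hF z hz, ← (E.hasProd h1).tprod_eq]
    unfold LF
    refine tprod_congr fun v => Finset.prod_congr rfl fun j _ => ?_
    rw [tf_factor, add_sub_cancel]
  have hopen : IsOpen {z : ℂ | (i : ℝ) / 2 + 1 < z.re} := isOpen_lt continuous_const Complex.continuous_re
  constructor
  · have h1 : AnalyticAt ℂ (fun z : ℂ => exp (cser (fr (qf S)) (ec (tf S α ((i : ℝ) / 2)))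
        (z - ((i : ℝ) / 2 : ℝ)))) s := by
      have h2 : AnalyticAt ℂ (cser (fr (qf S)) (ec (tf S α ((i : ℝ) / 2)))) (s - ((i : ℝ) / 2 : ℝ)) := by
        refine E.cd.ser_diff ?_
        rw [Complex.sub_re, Complex.ofReal_re]; linarith
      have h3 : AnalyticAt ℂ (fun z : ℂ => z - (((i : ℝ) / 2 : ℝ) : ℂ)) s := by fun_prop
      exact (AnalyticAt.comp (g := cser (fr (qf S)) (ec (tf S α ((i : ℝ) / 2))))
        (f := fun z : ℂ => z - (((i : ℝ) / 2 : ℝ) : ℂ)) h2 h3).cexp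
    refine h1.congr ?_
    filter_upwards [hopen.mem_nhds hs] with z hz
    exact (heq z hz).symm
  · rw [heq s hs]
    exact Complex.exp_ne_zero _

theorem order_right (hα : ∀ v ∉ S, IsFrobenius X d i v (α v)) {F : ℂ → ℂ}
    (hF : ∀ s : ℂ, (i : ℝ) / 2 + 1 < s.re → F s = LF S α s) {s : ℂ} (hs : (i : ℝ) / 2 + 1 < s.re) :
    meromorphicOrderAt F s = 0 := by
  obtain ⟨h1, h2⟩ := right_ne hα hF hs
  rw [h1.meromorphicOrderAt_eq, h1.analyticOrderAt_eq_zero.2 h2]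
  rfl

theorem shift_order (F : ℂ → ℂ) (s₀ x : ℝ) :
    meromorphicOrderAt (fun w => F (s₀ + w)) (x : ℂ) = meromorphicOrderAt F ((s₀ + x : ℝ) : ℂ) := by
  have h1 : (fun w : ℂ => F (s₀ + w)) = F ∘ (· + (s₀ : ℂ)) := by
    funext w; simp [add_comm]
  rw [h1, meromorphicOrderAt_comp_add_const_eq_meromorphicOrderAt]
  push_cast
  rw [add_comm]

theorem shift_order0 (F : ℂ → ℂ) (s₀ : ℝ) :
    meromorphicOrderAt (fun w => F (s₀ + w)) 0 = meromorphicOrderAt F s₀ := by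
  have := shift_order F s₀ 0
  simpa using this

theorem shift_coeff0 (F : ℂ → ℂ) (s₀ : ℝ) :
    meromorphicTrailingCoeffAt (fun w => F (s₀ + w)) 0 = meromorphicTrailingCoeffAt F s₀ := by
  have h1 : (fun w : ℂ => F (s₀ + w)) = F ∘ (· + (s₀ : ℂ)) := by
    funext w; simp [add_comm]
  rw [h1, meromorphicTrailingCoeffAt_comp_add_const_eq_meromorphicTrailingCoeffAt]
  simp

/-- **the data for `H^i(X)` at a real point** -/
theorem mdata_frob (hα : ∀ v ∉ S, IsFrobenius X d i v (α v)) (hi : i ≤ 2 * d) {s₀ : ℝ}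
    (hs : (i : ℝ) / 2 ≤ s₀) {F : ℂ → ℂ} (hF : ∀ s : ℂ, (i : ℝ) / 2 + 1 < s.re → F s = LF S α s)
    (hmer : ∀ x ∈ Icc s₀ ((i : ℝ) / 2 + 1), MeromorphicAt F (x : ℂ)) :
    MData (fr (qf S)) (rc (tf S α s₀)) (fun w => F (s₀ + w)) := by
  refine mdata_of (ed_frob hα hs) (tf_real hα hi s₀) (fun x hx => ?_) fun w hw => ?_
  · have h1 : MeromorphicAt F (s₀ + (x : ℂ)) := by
      rw [← Complex.ofReal_add]
      by_cases h : s₀ + x ≤ (i : ℝ) / 2 + 1
      · exact hmer _ ⟨by linarith [hx.1], h⟩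
      · push Not at h
        exact (right_ne hα hF (s := ((s₀ + x : ℝ) : ℂ)) (by rw [Complex.ofReal_re]; exact h)).1.meromorphicAt
    exact h1.comp_analyticAt (g := fun w : ℂ => s₀ + w) (by fun_prop)
  · rw [hF _ (by rw [Complex.add_re, Complex.ofReal_re]; linarith)]
    unfold LF
    refine tprod_congr fun v => Finset.prod_congr rfl fun j _ => ?_
    rw [tf_factor]

end frob

end Pool.Agent.Q284.R
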