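import Pool.Agent.Q284.R.Data
import Pool.Agent.Q284.R.Abs

/-! The rotated law for the L-function of `H^i(X)` at a real point `s₀ ≥ i/2`. -/

set_option autoImplicit false

namespace Pool.Agent.Q284.R

open Complex MeasureTheory Filter Topology Set NumberField IsDedekindDomain
open Pool.Agent.W189.ML Pool.Agent.W189.LC Pool.Agent.W187.UR Pool.Agent.Q286.RL
open Pool.Agent.TH958.BV (IsFrobenius)
open Pool.Agent.H921R2.TatePole (nm two_le_nm nm_summable)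

theorem Lam_zero : Lam 0 = ((kap : ℝ) : ℂ) := by
  unfold Lam kap
  rw [← integral_complex_ofReal]
  refine integral_congr_ae (Eventually.of_forall fun t => ?_)
  simp

theorem rmean_zero {ι : Type} (lam c : ι → ℝ) (T : ℝ) : rmean lam c 0 T = mean lam c T := by
  unfold rmean mean
  refine tsum_congr fun i => ?_
  simp

variable {K : Type} [Field K] [NumberField K] {n : ℕ} {X : Set (MvPolynomial (Fin n) (𝓞 K))}
  {d i N : ℕ} {S : Set (HeightOneSpectrum (𝓞 K))} {α : HeightOneSpectrum (𝓞 K) → Fin N → ℂ}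

/-- the weight `e^{iγu} / Γ(1 + u)` -/
noncomputable def wt (γ u : ℝ) : ℂ := exp ((γ * u : ℝ) * I) / ((Real.Gamma (1 + u) : ℝ) : ℂ)

/-- the term of index `(v, k - 1)` -/
noncomputable def sT (S : Set (HeightOneSpectrum (𝓞 K))) (α : HeightOneSpectrum (𝓞 K) → Fin N → ℂ)
    (s₀ γ Y : ℝ) (x : {v // v ∉ S} × ℕ) : ℂ :=
  (((∑ j, α x.1.1 j ^ (x.2 + 1)).re /
      (((x.2 : ℝ) + 1) * (nm x.1.1 : ℝ) ^ (((x.2 : ℝ) + 1) * s₀)) : ℝ) : ℂ) *
    wt γ (((x.2 : ℝ) + 1) * Real.log (nm x.1.1) / Real.log Y)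

theorem sT_eq (s₀ γ Y : ℝ) (x : {v // v ∉ S} × ℕ) : sT S α s₀ γ Y x =
    (rc (tf S α s₀) x : ℂ) * Q286.RL.ker γ (fr (qf S) x / Real.log Y) := by
  unfold sT wt Q286.RL.ker
  rw [rc_frob]
  have h1 : fr (qf S) x = ((x.2 : ℝ) + 1) * Real.log (nm x.1.1) := rfl
  rw [h1]
  push_cast
  ring

/-- the smoothed logarithm of the Euler product at `s₀` -/
noncomputable def sS (S : Set (HeightOneSpectrum (𝓞 K))) (α : HeightOneSpectrum (𝓞 K) → Fin N → ℂ)
    (s₀ γ Y : ℝ) : ℂ := ∑' x, sT S α s₀ γ Y x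

theorem sS_eq (hα : ∀ v ∉ S, IsFrobenius X d i v (α v)) (hi : i ≤ 2 * d) (s₀ γ Y : ℝ) :
    sS S α s₀ γ Y = cmean (fr (qf S)) (rc (tf S α s₀)) γ (Real.log Y) := by
  rw [cmn_eq (tf_real hα hi s₀)]
  exact tsum_congr fun x => sT_eq s₀ γ Y x

theorem sT_summable (hα : ∀ v ∉ S, IsFrobenius X d i v (α v)) (hi : i ≤ 2 * d) {s₀ : ℝ}
    (hs : (i : ℝ) / 2 ≤ s₀) (γ : ℝ) {Y : ℝ} (hY : Real.exp 1 ≤ Y) :
    Summable (sT S α s₀ γ Y) := by
  have hT : 1 ≤ Real.log Y := by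
    rw [← Real.log_exp 1]
    exact Real.log_le_log (Real.exp_pos _) hY
  have h := (ed_frob hα hs).cd.summable_cmn γ hT
  refine h.congr fun x => ?_
  rw [sT_eq, ec_real (tf_real hα hi s₀)]

theorem sS_re (hα : ∀ v ∉ S, IsFrobenius X d i v (α v)) (hi : i ≤ 2 * d) {s₀ : ℝ}
    (hs : (i : ℝ) / 2 ≤ s₀) (γ : ℝ) {Y : ℝ} (hY : Real.exp 1 ≤ Y) :
    (sS S α s₀ γ Y).re = rmean (fr (qf S)) (rc (tf S α s₀)) γ (Real.log Y) := by
  unfold sS
  rw [Complex.re_tsum (sT_summable hα hi hs γ hY)]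
  unfold rmean
  refine tsum_congr fun x => ?_
  rw [sT_eq, Complex.re_ofReal_mul]
  unfold Q286.RL.ker om
  rw [Complex.re_mul_ofReal, Complex.exp_ofReal_mul_I_re]

/-- the number of real zeros minus the number of real poles to the right of `s₀` -/
noncomputable def zn (F : ℂ → ℂ) (s₀ : ℝ) : ℤ := ∑ᶠ σ ∈ Ioi s₀, (meromorphicOrderAt F (σ : ℂ)).untop₀

theorem right_iff (hα : ∀ v ∉ S, IsFrobenius X d i v (α v)) {s₀ : ℝ} (hs : (i : ℝ) / 2 ≤ s₀)
    {F : ℂ → ℂ} (hF : ∀ s : ℂ, (i : ℝ) / 2 + 1 < s.re → F s = LF S α s) :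
    (∀ x ∈ Ioc (0 : ℝ) 1, meromorphicOrderAt (fun w => F (s₀ + w)) (x : ℂ) = 0) ↔
      ∀ σ : ℝ, s₀ < σ → meromorphicOrderAt F (σ : ℂ) = 0 := by
  constructor
  · intro h σ hσ
    by_cases h1 : σ - s₀ ≤ 1
    · have h2 := h (σ - s₀) ⟨by linarith, h1⟩
      rw [shift_order, show s₀ + (σ - s₀) = σ by ring] at h2
      exact h2
    · push Not at h1
      exact order_right hα hF (by rw [Complex.ofReal_re]; linarith)
  · intro h x hx
    rw [shift_order]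
    exact h _ (by linarith [hx.1])

theorem zn_eq (hα : ∀ v ∉ S, IsFrobenius X d i v (α v)) {s₀ : ℝ} (hs : (i : ℝ) / 2 ≤ s₀)
    {F : ℂ → ℂ} (hF : ∀ s : ℂ, (i : ℝ) / 2 + 1 < s.re → F s = LF S α s) :
    Zn (fun w => F (s₀ + w)) = zn F s₀ := by
  unfold Zn zn
  have h1 : (∑ᶠ x ∈ Ioc (0 : ℝ) 1, (meromorphicOrderAt (fun w => F (s₀ + w)) (x : ℂ)).untop₀) =
      ∑ᶠ x ∈ Ioc (0 : ℝ) 1, (meromorphicOrderAt F ((s₀ + x : ℝ) : ℂ)).untop₀ := by
    refine finsum_mem_congr rfl fun x _ => ?_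
    rw [shift_order]
  have h2 : (∑ᶠ σ ∈ Ioi s₀, (meromorphicOrderAt F (σ : ℂ)).untop₀) =
      ∑ᶠ σ ∈ Ioc s₀ (s₀ + 1), (meromorphicOrderAt F (σ : ℂ)).untop₀ := by
    refine finsum_mem_inter_support_eq' _ _ _ fun σ hσ => ?_
    rw [Function.mem_support] at hσ
    constructor
    · intro h
      refine ⟨h, ?_⟩
      by_contra h3
      push Not at h3
      rw [order_right hα hF (by rw [Complex.ofReal_re]; linarith)] at hσ
      simp at hσ
    · exact fun h => h.1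
  rw [h1, h2]
  have h3 : Ioc s₀ (s₀ + 1) = (fun x : ℝ => s₀ + x) '' Ioc (0 : ℝ) 1 := by
    rw [Set.image_const_add_Ioc, add_zero]
  rw [h3, finsum_mem_image ((add_right_injective s₀).injOn)]

/-- the hypotheses -/
structure Hyp (X : Set (MvPolynomial (Fin n) (𝓞 K))) (d i : ℕ) (S : Set (HeightOneSpectrum (𝓞 K)))
    (α : HeightOneSpectrum (𝓞 K) → Fin N → ℂ) (s₀ : ℝ) (F : ℂ → ℂ) : Prop where
  frob : ∀ v ∉ S, IsFrobenius X d i v (α v)
  le : i ≤ 2 * d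
  half : (i : ℝ) / 2 ≤ s₀
  eq : ∀ s : ℂ, (i : ℝ) / 2 + 1 < s.re → F s = LF S α s
  mero : ∀ x ∈ Icc s₀ ((i : ℝ) / 2 + 1), MeromorphicAt F (x : ℂ)

variable {s₀ : ℝ} {F : ℂ → ℂ}

instance : Countable ({v : HeightOneSpectrum (𝓞 K) // v ∉ S} × ℕ) := inferInstance

theorem Hyp.D (H : Hyp X d i S α s₀ F) :
    MData (fr (qf S)) (rc (tf S α s₀)) (fun w => F (s₀ + w)) :=
  mdata_frob H.frob H.le H.half H.eq H.mero

/-- **the law above the right angle** -/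
theorem Hyp.high (H : Hyp X d i S α s₀ F) : ∃ (m : ℤ) (A : ℝ), meromorphicOrderAt F s₀ = m ∧
    meromorphicTrailingCoeffAt F s₀ = A ∧ A ≠ 0 ∧ A = (-1) ^ zn F s₀ * |A| ∧
    ∀ γ : ℝ, Real.pi / 2 < γ → (fun Y : ℝ => sS S α s₀ γ Y - (Real.log |A| - Real.pi * zn F s₀ * I -
      m * (Real.log (Real.log Y) - Lam γ))) =O[atTop] (fun Y : ℝ => 1 / Real.log Y) := by
  obtain ⟨m, hm⟩ := order_int H.D
  obtain ⟨A, hA, hA0, hsg, h⟩ := high_law H.D hm
  rw [zn_eq H.frob H.half H.eq] at hsg h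
  rw [shift_coeff0] at hA
  rw [shift_order0] at hm
  refine ⟨m, A, hm, hA, hA0, hsg, fun γ hγ => ?_⟩
  obtain ⟨C, T₀, hC, hT₀, h1⟩ := h γ hγ
  refine Asymptotics.IsBigO.of_bound C ?_
  filter_upwards [Real.tendsto_log_atTop.eventually (eventually_ge_atTop T₀)] with Y hY
  have hT1 : 0 < Real.log Y := by linarith
  rw [sS_eq H.frob H.le, Real.norm_eq_abs, abs_of_pos (by positivity : 0 < 1 / Real.log Y),
    mul_one_div]
  exact h1 _ hY

/-- **the equivalence above the right angle** -/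
theorem Hyp.iff (H : Hyp X d i S α s₀ F) {γ : ℝ} (hγ : Real.pi / 2 < γ) (r : ℤ) {B : ℂ}
    (hB : B ≠ 0) :
    (meromorphicOrderAt F s₀ = (r : WithTop ℤ) ∧ meromorphicTrailingCoeffAt F s₀ = B) ↔
    Tendsto (fun Y : ℝ => exp (sS S α s₀ γ Y) * (Real.log Y : ℂ) ^ r) atTop
      (𝓝 (B * exp (r * Lam γ))) := by
  have h := high_iff H.D hγ r hB
  rw [shift_order0, shift_coeff0] at h
  rw [h]
  simp only [sS_eq H.frob H.le]
  constructor
  · intro h1
    exact h1.comp Real.tendsto_log_atTop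
  · intro h1
    have h2 := h1.comp Real.tendsto_exp_atTop
    refine h2.congr fun T => ?_
    simp only [Function.comp, Real.log_exp]

/-- **the dichotomy below the right angle** -/
theorem Hyp.low (H : Hyp X d i S α s₀ F) {m : ℤ} (hm : meromorphicOrderAt F s₀ = m) {γ : ℝ}
    (h0 : 0 ≤ γ) (h1 : γ < Real.pi / 2) :
    ((∃ C : ℝ, ∀ᶠ Y : ℝ in atTop, |(sS S α s₀ γ Y).re + m * Real.log (Real.log Y)| ≤ C) ↔
      ∀ σ : ℝ, s₀ < σ → meromorphicOrderAt F (σ : ℂ) = 0) ∧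
    ∀ σ : ℝ, s₀ < σ → meromorphicOrderAt F (σ : ℂ) ≠ 0 → ∀ y < σ - s₀,
      ∃ᶠ Y : ℝ in atTop, Real.exp (Y ^ y) ≤ |(sS S α s₀ γ Y).re| := by
  obtain ⟨h2, h3⟩ := low_iff H.D (m := m) (by rw [shift_order0]; exact hm) h0 h1
  constructor
  · rw [← right_iff H.frob H.half H.eq, ← h2]
    constructor
    · rintro ⟨C, hC⟩
      rw [eventually_atTop] at hC
      obtain ⟨Y₀, hY₀⟩ := hC
      refine ⟨C, max (Real.log (max Y₀ 1)) 1, fun T hT => ?_⟩
      have h4 := hY₀ (Real.exp T) ?_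
      · rw [sS_re H.frob H.le H.half γ (Real.exp_le_exp.2 ((le_max_right _ _).trans hT)),
          Real.log_exp] at h4
        exact h4
      · have h5 : Real.log (max Y₀ 1) ≤ T := (le_max_left _ _).trans hT
        have h6 : 0 < max Y₀ 1 := lt_of_lt_of_le one_pos (le_max_right _ _)
        calc Y₀ ≤ max Y₀ 1 := le_max_left _ _
          _ = Real.exp (Real.log (max Y₀ 1)) := (Real.exp_log h6).symm
          _ ≤ Real.exp T := Real.exp_le_exp.2 h5
    · rintro ⟨C, T₀, h4⟩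
      refine ⟨C, ?_⟩
      filter_upwards [eventually_ge_atTop (Real.exp 1),
        Real.tendsto_log_atTop.eventually (eventually_ge_atTop T₀)] with Y hY1 hY2
      rw [sS_re H.frob H.le H.half γ hY1]
      exact h4 _ hY2
  · intro σ hσ hσ0 y hy
    have hσ1 : σ - s₀ ≤ 1 := by
      by_contra hlt
      push Not at hlt
      exact hσ0 (order_right H.frob H.eq (by rw [Complex.ofReal_re]; linarith [H.half]))
    have h4 := h3 (σ - s₀) ⟨by linarith, hσ1⟩ (by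
      rw [shift_order, show s₀ + (σ - s₀) = σ by ring]
      exact hσ0) y hy 0
    have h5 : ∃ᶠ T : ℝ in atTop, 1 ≤ T ∧ Real.exp (Real.exp (y * T)) ≤
        |rmean (fr (qf S)) (rc (tf S α s₀)) γ T| := by
      refine (h4.and_eventually (eventually_ge_atTop (1 : ℝ))).mono fun T hT => ⟨hT.2, ?_⟩
      have := hT.1
      linarith
    refine (Real.tendsto_exp_atTop.frequently (p := fun Y : ℝ => Real.exp (Y ^ y) ≤
      |(sS S α s₀ γ Y).re|) (h5.mono fun T hT => ?_))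
    obtain ⟨h6, h7⟩ := hT
    rw [sS_re H.frob H.le H.half γ (Real.exp_le_exp.2 h6), Real.log_exp, ← Real.exp_mul, mul_comm T y]
    exact h7

/-- **no rotation** -/
theorem Hyp.zero (H : Hyp X d i S α s₀ F) (r : ℤ) {B : ℝ} (hB : 0 < B) :
    ((∀ σ : ℝ, s₀ < σ → meromorphicOrderAt F (σ : ℂ) = 0) ∧ meromorphicOrderAt F s₀ = r ∧
      meromorphicTrailingCoeffAt F s₀ = B) ↔
    Tendsto (fun Y : ℝ => (sS S α s₀ 0 Y).re + r * Real.log (Real.log Y)) atTop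
      (𝓝 (Real.log B + r * (Lam 0).re)) := by
  have h := H.D.iff r hB
  rw [right_iff H.frob H.half H.eq, shift_order0, shift_coeff0] at h
  rw [h, Lam_zero, Complex.ofReal_re]
  constructor
  · intro h1
    refine (h1.comp Real.tendsto_log_atTop).congr' ?_
    filter_upwards [eventually_ge_atTop (Real.exp 1)] with Y hY
    rw [sS_re H.frob H.le H.half 0 hY, rmean_zero]
    rfl
  · intro h1
    refine (h1.comp Real.tendsto_exp_atTop).congr' ?_
    filter_upwards [eventually_ge_atTop (1 : ℝ)] with T hT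
    simp only [Function.comp]
    rw [sS_re H.frob H.le H.half 0 (Real.exp_le_exp.2 hT), rmean_zero, Real.log_exp]

end Pool.Agent.Q284.R
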