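import Pool.Agent.W187.UR.NF
import Pool.Agent.W187.UR.Np2
import Pool.Agent.W371.UR.Full
import Pool.Agent.W125.UR.Sing
import Pool.Agent.W376.UR.HHm
import Pool.Agent.W349.UR.NU

/-! Rotation by less than a right angle, for a general series with real coefficients: the law holds
exactly if there are no zeros and poles on the segment. -/

set_option autoImplicit false

namespace Pool.Agent.Q284.R

open Complex MeasureTheory Filter Topology Set
open Pool.Agent.W189.ML Pool.Agent.W189.LC Pool.Agent.W187.UR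

variable {ι : Type} {lam c : ι → ℝ} {Φ : ℂ → ℂ}

theorem rmean_neg (lam c : ι → ℝ) (γ T : ℝ) : rmean lam (fun i => -c i) γ T = -rmean lam c γ T := by
  unfold rmean
  rw [← tsum_neg]
  refine tsum_congr fun i => ?_
  ring

theorem ser_cont (D : MData lam c Φ) : ContinuousAt (ser lam fun i => -c i) 2 := by
  have h2 : ser lam (fun i => -c i) = fun w => -ser lam c w := funext fun w => ser_neg lam c w
  rw [h2]
  exact (D.ser_diff (w := 2) (by norm_num)).continuousAt.neg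

/-- no zeros or poles in `(0, 1]` -/
theorem low_full [Countable ι] (D : MData lam c Φ) {m : ℤ} (hm : meromorphicOrderAt Φ 0 = m) {γ : ℝ}
    (hγ : 0 ≤ γ) (hz : ∀ x ∈ Ioc (0 : ℝ) 1, meromorphicOrderAt Φ (x : ℂ) = 0) :
    ∃ C T₀ : ℝ, ∀ T ≥ T₀, |rmean lam c γ T + m * Real.log T| ≤ C := by
  have hz' : ∀ x ∈ Icc (0 : ℝ) 2, x ≠ 0 → meromorphicOrderAt Φ (x : ℂ) = 0 := by
    intro x hx hx0
    by_cases h : x ≤ 1
    · exact hz x ⟨lt_of_le_of_ne hx.1 (Ne.symm hx0), h⟩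
    · push Not at h
      exact D.order_right (by simpa using h)
  obtain ⟨Q, hQa, hQr, hQ2, htr⟩ := D.factor (x₀ := 0) (x₁ := 0) le_rfl le_rfl zero_le_one
    (m := m) (by simpa using hm) hz'
  obtain ⟨C, T₀, h⟩ := Pool.Agent.W371.UR.full lam (fun i => -c i) (fun _ => 0) D.sdata γ hγ m Q hQa
    (fun x hx => mem_slit (hQr x hx)) (by
      have := (log_im (hQr 2 ⟨by norm_num, le_rfl⟩)).1
      simpa using this) (by
      filter_upwards [hQ2] with w hw
      rw [ser_neg, zero_sub, neg_neg, hw]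
      simp) (ser_cont D)
  refine ⟨C, T₀, fun T hT => ?_⟩
  have h1 := h T hT
  rw [rmean_neg] at h1
  rw [← abs_neg]
  refine le_trans (le_of_eq ?_) h1
  congr 1
  ring

/-- a zero or a pole in `(0, 1]` -/
theorem low_large [Countable ι] (D : MData lam c Φ) {γ : ℝ} (h0 : 0 ≤ γ) (h1 : γ < Real.pi / 2)
    {x₀ x₁ : ℝ} (hx1 : 0 ≤ x₁) (hx : x₁ < x₀) (hx0 : x₀ ≤ 1) {m : ℤ} (hm0 : m ≠ 0)
    (hm : meromorphicOrderAt Φ (x₀ : ℂ) = m)
    (hz : ∀ x ∈ Icc x₁ 2, x ≠ x₀ → meromorphicOrderAt Φ (x : ℂ) = 0) {y : ℝ} (hy : y < x₀) (B : ℝ) :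
    ∃ᶠ T : ℝ in atTop, Real.exp (Real.exp (y * T)) + B + B * T ≤ |rmean lam c γ T| := by
  have h00 : 0 < x₀ := by linarith
  obtain ⟨Q, hQa, hQr, hQ2, htr⟩ := D.factor hx1 hx.le hx0 hm hz
  obtain ⟨C, T₀, hC⟩ := Pool.Agent.W125.UR.sing lam (fun i => -c i) (fun _ => 0) D.sdata γ h0 h1 x₁ x₀
    hx1 hx hx0 m Q hQa (fun x hx => mem_slit (hQr x hx)) (by
      have := (log_im (hQr 2 ⟨by linarith, le_rfl⟩)).1
      simpa using this) (by
      filter_upwards [hQ2] with w hw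
      rw [ser_neg, zero_sub, neg_neg, hw]) (ser_cont D)
  have hκ : 0 < Real.cos γ := Real.cos_pos_of_mem_Ioo ⟨by linarith [Real.pi_pos], h1⟩
  have hm1 : (1 : ℝ) ≤ |(m : ℝ)| := by
    have := Int.one_le_abs hm0
    exact_mod_cast this
  have hhh : S_HH := Pool.Agent.W376.UR.hh Pool.Agent.W349.UR.nu
  have hfr : ∃ᶠ T : ℝ in atTop, Real.exp (Real.exp (x₀ * T) * Real.cos γ - 2 * (x₀ * T)) ≤
      (HH (x₀ * T + γ * Complex.I)).re := by
    have e1 : Tendsto (fun x : ℝ => x / x₀) atTop atTop := tendsto_id.atTop_div_const h00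
    refine e1.frequently ?_
    refine (hhh γ h0 h1).mono fun x hx => ?_
    have e2 : x₀ * (x / x₀) = x := by field_simp
    have e3 : (x₀ : ℂ) * ((x / x₀ : ℝ) : ℂ) = (x : ℂ) := by
      rw [← Complex.ofReal_mul, e2]
    rw [e2, e3]
    exact hx
  set y' : ℝ := max y x₁ with hy'
  have hy1 : y' < x₀ := max_lt hy hx
  have hg := gap3 (D := |C| + |B| + 2) hy1 h00 hκ
  refine (hfr.and_eventually (hg.and ((eventually_ge_atTop T₀).and
    (eventually_ge_atTop (1 : ℝ))))).mono ?_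
  rintro T ⟨h2, h3, h4, h5⟩
  have h6 := hC T h4
  have hlogT0 : 0 ≤ Real.log T := Real.log_nonneg h5
  set W : ℝ := Real.exp (y' * T) with hW
  set R : ℝ := (HH (x₀ * T + γ * Complex.I)).re with hR
  have h7 : Real.exp (W + (|C| + |B| + 2) + (|C| + |B| + 2) * T) ≤ R := by
    refine le_trans (Real.exp_le_exp.2 ?_) h2
    linarith
  have hR0 : 0 ≤ R := (Real.exp_pos _).le.trans h7
  have h8 : Real.exp (x₁ * T) ≤ W := Real.exp_le_exp.2
    (mul_le_mul_of_nonneg_right (le_max_right _ _) (by linarith))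
  have h10 : Real.exp (y * T) ≤ W := Real.exp_le_exp.2
    (mul_le_mul_of_nonneg_right (le_max_left _ _) (by linarith))
  have h11 : Real.exp (Real.exp (x₁ * T)) ≤ Real.exp W := Real.exp_le_exp.2 h8
  have h12 : Real.exp (Real.exp (y * T)) ≤ Real.exp W := Real.exp_le_exp.2 h10
  have h13 : Real.exp W * (1 + |C| + |B| + |B| * T) ≤ R := by
    refine le_trans ?_ h7
    have h13' : W + (|C| + |B| + 2) + (|C| + |B| + 2) * T =
        W + ((|C| + |B| + 2) + (|C| + |B| + 2) * T) := by ring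
    rw [h13', Real.exp_add]
    refine mul_le_mul_of_nonneg_left ?_ (Real.exp_pos _).le
    have h14 := Real.add_one_le_exp ((|C| + |B| + 2) + (|C| + |B| + 2) * T)
    have h15 := abs_nonneg C
    have h16 := abs_nonneg B
    nlinarith
  rw [rmean_neg] at h6
  have h14 : |(m : ℝ) * (Real.log T + R)| - C * Real.exp (Real.exp (x₁ * T)) ≤
      |rmean lam c γ T| := by
    have e1 := abs_sub_abs_le_abs_sub ((m : ℝ) * (Real.log T + R)) (-rmean lam c γ T)
    rw [abs_neg, abs_sub_comm] at e1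
    linarith
  have h15 : C * Real.exp (Real.exp (x₁ * T)) ≤ |C| * Real.exp W := by
    calc C * Real.exp (Real.exp (x₁ * T)) ≤ |C| * Real.exp (Real.exp (x₁ * T)) := by
          gcongr; exact le_abs_self C
      _ ≤ |C| * Real.exp W := by gcongr
  have h16 : R ≤ |(m : ℝ) * (Real.log T + R)| := by
    rw [abs_mul, abs_of_nonneg (by positivity : 0 ≤ Real.log T + R)]
    nlinarith
  have h17 : B + B * T ≤ Real.exp W * (|B| + |B| * T) := by
    have h18 : B + B * T ≤ |B| + |B| * T := by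
      have := le_abs_self B
      nlinarith
    have h19 : 1 ≤ Real.exp W := Real.one_le_exp (Real.exp_pos _).le
    have h20 : 0 ≤ |B| + |B| * T := by positivity
    nlinarith
  have h18 : Real.exp W * (1 + |C| + |B| + |B| * T) =
      Real.exp W + |C| * Real.exp W + Real.exp W * (|B| + |B| * T) := by ring
  linarith

/-- **below the right angle**: the law is equivalent to the absence of zeros and poles -/
theorem low_iff [Countable ι] (D : MData lam c Φ) {m : ℤ} (hm : meromorphicOrderAt Φ 0 = m) {γ : ℝ}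
    (h0 : 0 ≤ γ) (h1 : γ < Real.pi / 2) :
    ((∃ C T₀ : ℝ, ∀ T ≥ T₀, |rmean lam c γ T + m * Real.log T| ≤ C) ↔
      ∀ x ∈ Ioc (0 : ℝ) 1, meromorphicOrderAt Φ (x : ℂ) = 0) ∧
    ∀ x ∈ Ioc (0 : ℝ) 1, meromorphicOrderAt Φ (x : ℂ) ≠ 0 → ∀ y < x, ∀ B : ℝ,
      ∃ᶠ T : ℝ in atTop, Real.exp (Real.exp (y * T)) + B + B * T ≤ |rmean lam c γ T| := by
  have hlarge : ∀ x ∈ Ioc (0 : ℝ) 1, meromorphicOrderAt Φ (x : ℂ) ≠ 0 → ∀ y < x, ∀ B : ℝ,
      ∃ᶠ T : ℝ in atTop, Real.exp (Real.exp (y * T)) + B + B * T ≤ |rmean lam c γ T| := by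
    intro x hx hx0 y hy B
    obtain ⟨x₀, x₁, k1, k2, k3, k4, k, k5, k6, k7⟩ := D.rightmost (fun h => hx0 (h x hx))
    refine low_large D h0 h1 k3 k4 k2 k5 k6 k7 (lt_of_lt_of_le hy ?_) B
    by_contra hlt
    push Not at hlt
    exact hx0 (k7 x ⟨by linarith, by linarith [hx.2]⟩ hlt.ne')
  refine ⟨⟨fun ⟨C, T₀, h⟩ => ?_, low_full D hm h0⟩, hlarge⟩
  intro x hx
  by_contra hx0
  have h2 := hlarge x hx hx0 0 hx.1 (|C| + |(m : ℝ)| + 1)
  obtain ⟨T, h3, h4, h5⟩ := (h2.and_eventually ((eventually_ge_atTop T₀).and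
    (eventually_ge_atTop (1 : ℝ)))).exists
  have h6 := h T h4
  have h7 : |rmean lam c γ T| ≤ C + |(m : ℝ)| * T := by
    have e1 := abs_sub_abs_le_abs_sub (rmean lam c γ T) (-(m * Real.log T))
    rw [abs_neg, sub_neg_eq_add, abs_mul, abs_of_nonneg (Real.log_nonneg h5)] at e1
    have e2 := Real.log_le_self (show (0 : ℝ) ≤ T by linarith)
    have e3 := mul_le_mul_of_nonneg_left e2 (abs_nonneg (m : ℝ))
    linarith
  have h8 := Real.exp_pos (Real.exp (0 * T))
  have h9 := le_abs_self C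
  have h10 := abs_nonneg C
  have h11 := abs_nonneg (m : ℝ)
  nlinarith

end Pool.Agent.Q284.R
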